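import Pool.Agent.helper10.OM.Spec

/-! Project OM (MP_bf63dc_nt), row SMF. -/

set_option autoImplicit false

namespace Pool.Agent.OM

open Finset Real Pool.Agent.AT Pool.Agent.helper85.FC

theorem SMF (h1 : GEO_stmt) (h2 : ARC_stmt) : SMF_stmt := by
  classical
  intro a b L D ρ ha hb hL hD hρ hLD α β hnot
  let t : ℕ → ℝ := fun m => (a : ℝ) ^ m * α + (b : ℝ) ^ m * β
  have hL0 : (0 : ℝ) < L := by exact_mod_cast hL
  have hcard : #{m ∈ Ico 1 L | Near (t m) ρ} ≤ 1 := by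
    rw [Finset.card_le_one]
    intro m hm m' hm'
    rw [mem_filter, mem_Ico] at hm hm'
    rcases lt_trichotomy m m' with h | h | h
    · exact absurd (h2 a b L ha hb α β ρ m m' hm.1.1 h hm'.1.2 hρ.le hm.2 hm'.2) hnot
    · exact h
    · exact absurd (h2 a b L ha hb α β ρ m' m hm'.1.1 h hm.1.2 hρ.le hm'.2 hm.2) hnot
  have hterm : ∀ m ∈ Ico 1 L, FD D (t m) ≤ (if Near (t m) ρ then 1 else 0) + 1 / (L : ℝ) := by
    intro m _
    obtain ⟨-, h4, h5⟩ := h1 D (t m)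
    split_ifs with h
    · have : 0 ≤ 1 / (L : ℝ) := by positivity
      linarith
    · rw [zero_add]
      exact (h5 ρ hρ hD h).trans (one_div_le_one_div_of_le hL0 hLD)
  have hsum : ∑ m ∈ Ico 1 L, ((if Near (t m) ρ then 1 else 0) + 1 / (L : ℝ)) =
      (#{m ∈ Ico 1 L | Near (t m) ρ} : ℝ) + #(Ico 1 L) * (1 / (L : ℝ)) := by
    rw [sum_add_distrib, sum_const, nsmul_eq_mul, sum_boole]
  have hc : ((#(Ico 1 L) : ℕ) : ℝ) * (1 / (L : ℝ)) ≤ 1 := by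
    rw [Nat.card_Ico, mul_one_div, div_le_one hL0]
    exact_mod_cast Nat.sub_le L 1
  have hc' : ((#{m ∈ Ico 1 L | Near (t m) ρ} : ℕ) : ℝ) ≤ 1 := by exact_mod_cast hcard
  calc ∑ m ∈ Ico 1 L, FD D ((a : ℝ) ^ m * α + (b : ℝ) ^ m * β)
      ≤ ∑ m ∈ Ico 1 L, ((if Near (t m) ρ then 1 else 0) + 1 / (L : ℝ)) := sum_le_sum hterm
    _ ≤ 2 := by rw [hsum]; linarith

end Pool.Agent.OM
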